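import Mathlib

/-!
# Flat versus free fundamental modules on infinite boundary graphs

We construct an infinite, connected, simple boundary graph whose fundamental module is flat for
every network over every commutative ring, but is not free for some network over the integers.
-/

namespace Pool.Agent.Results.MP_2ddb17_co.FlatNotFree

open Finsupp

/-- A `∂`-graph: a countable, locally finite, undirected multigraph (given by its vertices and its
oriented edges with their start and end vertices and the reversal of edges) with a set of interior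
vertices; the other vertices are the boundary vertices. -/
structure BoundaryGraph where
  /-- the vertices -/
  V : Type
  /-- the oriented edges -/
  E : Type
  /-- the start vertex `e₊` of an oriented edge -/
  start : E → V
  /-- the end vertex `e₋` of an oriented edge -/
  fin : E → V
  /-- the reversed edge -/
  rev : E → E
  rev_rev : ∀ e, rev (rev e) = e
  rev_ne : ∀ e, rev e ≠ e
  start_rev : ∀ e, start (rev e) = fin e
  countable : Countable V
  locallyFinite : ∀ x, {e | start e = x}.Finite
  /-- the interior vertices -/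
  interior : Set V

/-- An `R^×`-network on the `∂`-graph `G`: symmetric edge weights `w` that are units of `R` and an
arbitrary function `d` on the vertices. -/
structure Network (G : BoundaryGraph) (R : Type*) [CommRing R] where
  /-- the edge weights -/
  w : G.E → R
  /-- the potential -/
  d : G.V → R
  w_rev : ∀ e, w (G.rev e) = w e
  w_unit : ∀ e, IsUnit (w e)

namespace Network

variable {G : BoundaryGraph} {R : Type*} [CommRing R] (N : Network G R)

/-- The value `L x = d(x) x + ∑_{e ∈ E(x)} w(e) (x - e₋)` of the generalized Laplacian at a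
vertex. -/
noncomputable def lapVertex (x : G.V) : G.V →₀ R :=
  N.d x • single x (1 : R) +
    ∑ e ∈ (G.locallyFinite x).toFinset, N.w e • (single x (1 : R) - single (G.fin e) (1 : R))

/-- The generalized Laplacian `L : RV → RV`. -/
noncomputable def laplacian : (G.V →₀ R) →ₗ[R] (G.V →₀ R) :=
  Finsupp.linearCombination R N.lapVertex

/-- The fundamental module `Υ = RV / L(RV°)`. -/
abbrev Upsilon : Type _ :=
  (G.V →₀ R) ⧸ Submodule.map N.laplacian (Finsupp.supported R R G.interior)

end Network

/-! ### A criterion for flatness -/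

lemma flat_of_maps {R P : Type*} [CommRing R] [AddCommGroup P] [Module R P] [Module.Flat R P]
    (K : Submodule R P)
    (h : ∀ k ∈ K, ∃ φ : P →ₗ[R] P, (∀ p, φ p - p ∈ K) ∧ φ k = 0) :
    Module.Flat R (P ⧸ K) := by
  refine Module.Flat.of_forall_isTrivialRelation ?_
  intro l f x hx
  choose p hp using fun i => Submodule.Quotient.mk_surjective K (x i)
  have hk : ∑ i, f i • p i ∈ K := by
    rw [← Submodule.Quotient.mk_eq_zero, ← Submodule.mkQ_apply, map_sum]
    simp only [map_smul, Submodule.mkQ_apply, hp]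
    exact hx
  obtain ⟨φ, h1, h2⟩ := h _ hk
  rw [map_sum] at h2
  simp only [map_smul] at h2
  obtain ⟨k, a, y, h3, h4⟩ := Module.Flat.isTrivialRelation_of_sum_smul_eq_zero h2
  refine ⟨k, a, fun j => Submodule.Quotient.mk (y j), ?_, h4⟩
  intro i
  have h5 : (Submodule.Quotient.mk (φ (p i)) : P ⧸ K) = Submodule.Quotient.mk (p i) :=
    (Submodule.Quotient.eq K).mpr (h1 (p i))
  have h6 : φ (p i) = ∑ j, a i j • y j := h3 i
  rw [← hp i, ← h5, h6, ← Submodule.mkQ_apply, map_sum]
  rfl

lemma flat_of_seq {R P : Type*} [CommRing R] [AddCommGroup P] [Module R P] [Module.Flat R P]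
    (K : Submodule R P) (T : ℕ → Set P) (hK : K = Submodule.span R (⋃ n, T n))
    (E : ℕ → P →ₗ[R] P) (hE : ∀ n p, E n p - p ∈ K) (h0 : ∀ n, ∀ t ∈ T n, E n t = 0)
    (h1 : ∀ m n, m < n → ∀ t ∈ T n, E m t = t) : Module.Flat R (P ⧸ K) := by
  let φ : ℕ → P →ₗ[R] P := fun N => Nat.rec LinearMap.id (fun n g => (E n) ∘ₗ g) N
  have hφ0 : φ 0 = LinearMap.id := rfl
  have hφs : ∀ n, φ (n + 1) = (E n) ∘ₗ (φ n) := fun n => rfl
  have hmod : ∀ N p, φ N p - p ∈ K := by
    intro N
    induction N with
    | zero => intro p; rw [hφ0]; simp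
    | succ n ih =>
      intro p
      rw [hφs]
      have := K.add_mem (hE n (φ n p)) (ih p)
      simpa using this
  have hfix : ∀ n, ∀ t ∈ T n, ∀ m, m ≤ n → φ m t = t := by
    intro n t ht m
    induction m with
    | zero => intro _; rw [hφ0]; rfl
    | succ m ih =>
      intro hm
      rw [hφs, LinearMap.comp_apply, ih (by omega), h1 m n (by omega) t ht]
  have hzero : ∀ n, ∀ t ∈ T n, ∀ m, n < m → φ m t = 0 := by
    intro n t ht m hm
    induction m with
    | zero => omega
    | succ m ih =>
      rw [hφs, LinearMap.comp_apply]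
      rcases Nat.lt_succ_iff_lt_or_eq.mp hm with h | h
      · rw [ih h, map_zero]
      · subst h
        rw [hfix n t ht n le_rfl, h0 n t ht]
  refine flat_of_maps K ?_
  intro k hk
  have hex : ∃ N, ∀ m, N ≤ m → φ m k = 0 := by
    rw [hK] at hk
    induction hk using Submodule.span_induction with
    | mem t ht =>
      obtain ⟨n, hn⟩ := Set.mem_iUnion.mp ht
      exact ⟨n + 1, fun m hm => hzero n t hn m (by omega)⟩
    | zero => exact ⟨0, fun m _ => map_zero _⟩
    | add a b _ _ ha hb =>
      obtain ⟨A, hA⟩ := ha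
      obtain ⟨B, hB⟩ := hb
      refine ⟨max A B, fun m hm => ?_⟩
      rw [map_add, hA m (le_trans (le_max_left _ _) hm), hB m (le_trans (le_max_right _ _) hm),
        add_zero]
    | smul r a _ ha =>
      obtain ⟨A, hA⟩ := ha
      exact ⟨A, fun m hm => by rw [map_smul, hA m hm, smul_zero]⟩
  obtain ⟨N, hN⟩ := hex
  exact ⟨φ N, hmod N, hN N le_rfl⟩

/-! ### The graph -/

/-- The vertices: `(n, 0) = b_n`, `(n, 1) = c_n` (boundary), `(n, 2) = x_n`, `(n, 3) = y_n`
(interior). -/
abbrev Vx : Type := ℕ × Fin 4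

/-- The interior end of an edge. -/
def inner : ℕ → Fin 5 → Vx
  | n, 0 => (n, 2)
  | n, 1 => (n, 2)
  | n, 2 => (n, 2)
  | n, 3 => (n, 3)
  | n, 4 => (n, 3)

/-- The boundary end of an edge. -/
def outer : ℕ → Fin 5 → Vx
  | n, 0 => (n, 0)
  | n, 1 => (n + 1, 0)
  | n, 2 => (n, 1)
  | n, 3 => (n + 1, 0)
  | n, 4 => (n, 1)

/-- The edges: `x_n — b_n`, `x_n — b_{n+1}`, `x_n — c_n`, `y_n — b_{n+1}`, `y_n — c_n`, each with
two orientations. -/
abbrev Ed : Type := ℕ × Fin 5 × Bool

/-- The start vertex. -/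
def st (e : Ed) : Vx := if e.2.2 then inner e.1 e.2.1 else outer e.1 e.2.1

/-- The end vertex. -/
def en (e : Ed) : Vx := if e.2.2 then outer e.1 e.2.1 else inner e.1 e.2.1

lemma fst_le_st (e : Ed) : e.1 ≤ (st e).1 := by
  obtain ⟨n, k, o⟩ := e
  cases o <;> fin_cases k <;> simp [st, inner, outer]

/-- The `∂`-graph. -/
abbrev G : BoundaryGraph where
  V := Vx
  E := Ed
  start := st
  fin := en
  rev e := (e.1, e.2.1, !e.2.2)
  rev_rev e := by simp
  rev_ne e := by
    intro h
    have := congrArg (fun t : Ed => t.2.2) h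
    simp at this
  start_rev e := by
    obtain ⟨n, k, o⟩ := e
    cases o <;> simp [st, en]
  countable := inferInstance
  locallyFinite x := by
    refine Set.Finite.subset (s := (Set.Iic x.1) ×ˢ (Set.univ : Set (Fin 5 × Bool))) ?_ ?_
    · exact (Set.finite_Iic x.1).prod Set.finite_univ
    · intro e he
      simp only [Set.mem_ofPred_eq] at he
      refine ⟨?_, Set.mem_univ _⟩
      rw [Set.mem_Iic, ← he]
      exact fst_le_st e
  interior := {v | v.2 = 2 ∨ v.2 = 3}

lemma toFinset_x (n : ℕ) : (G.locallyFinite ((n, 2) : Vx)).toFinset =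
    ({(n, 0, true), (n, 1, true), (n, 2, true)} : Finset Ed) := by
  ext e
  simp only [Set.Finite.mem_toFinset, Set.mem_ofPred_eq]
  obtain ⟨m, k, o⟩ := e
  cases o <;> fin_cases k <;> simp [st, inner, outer]

lemma toFinset_y (n : ℕ) : (G.locallyFinite ((n, 3) : Vx)).toFinset =
    ({(n, 3, true), (n, 4, true)} : Finset Ed) := by
  ext e
  simp only [Set.Finite.mem_toFinset, Set.mem_ofPred_eq]
  obtain ⟨m, k, o⟩ := e
  cases o <;> fin_cases k <;> simp [st, inner, outer]

section

variable {R : Type*} [CommRing R] (N : Network G R)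

lemma lap_x (n : ℕ) : N.lapVertex ((n, 2) : Vx) =
    (N.d ((n, 2) : Vx) + N.w ((n, 0, true) : Ed) + N.w ((n, 1, true) : Ed) +
      N.w ((n, 2, true) : Ed)) • (single ((n, 2) : Vx) (1 : R)) -
    N.w ((n, 0, true) : Ed) • (single ((n, 0) : Vx) (1 : R)) -
    N.w ((n, 1, true) : Ed) • (single ((n + 1, 0) : Vx) (1 : R)) -
    N.w ((n, 2, true) : Ed) • (single ((n, 1) : Vx) (1 : R)) := by
  unfold Network.lapVertex
  rw [toFinset_x, Finset.sum_insert (by simp), Finset.sum_insert (by simp), Finset.sum_singleton]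
  change _ + (N.w ((n, 0, true) : Ed) • (_ - single ((n, 0) : Vx) (1 : R)) +
    (N.w ((n, 1, true) : Ed) • (_ - single ((n + 1, 0) : Vx) (1 : R)) +
    N.w ((n, 2, true) : Ed) • (_ - single ((n, 1) : Vx) (1 : R)))) = _
  module

lemma lap_y (n : ℕ) : N.lapVertex ((n, 3) : Vx) =
    (N.d ((n, 3) : Vx) + N.w ((n, 3, true) : Ed) + N.w ((n, 4, true) : Ed)) •
      (single ((n, 3) : Vx) (1 : R)) -
    N.w ((n, 3, true) : Ed) • (single ((n + 1, 0) : Vx) (1 : R)) -
    N.w ((n, 4, true) : Ed) • (single ((n, 1) : Vx) (1 : R)) := by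
  unfold Network.lapVertex
  rw [toFinset_y, Finset.sum_insert (by simp), Finset.sum_singleton]
  change _ + (N.w ((n, 3, true) : Ed) • (_ - single ((n + 1, 0) : Vx) (1 : R)) +
    N.w ((n, 4, true) : Ed) • (_ - single ((n, 1) : Vx) (1 : R))) = _
  module

/-- The relations at level `n`. -/
def rels (n : ℕ) : Set (Vx →₀ R) := {N.lapVertex ((n, 2) : Vx), N.lapVertex ((n, 3) : Vx)}

lemma map_eq_span : Submodule.map N.laplacian (Finsupp.supported R R G.interior) =
    Submodule.span R (⋃ n, rels N n) := by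
  rw [Finsupp.supported_eq_span_single, Submodule.map_span, ← Set.image_comp]
  congr 1
  ext t
  simp only [Set.mem_image, Set.mem_iUnion, Function.comp]
  constructor
  · rintro ⟨⟨n, i⟩, hv, rfl⟩
    refine ⟨n, ?_⟩
    unfold Network.laplacian
    rw [Finsupp.linearCombination_single, one_smul]
    change i = 2 ∨ i = 3 at hv
    rcases hv with rfl | rfl
    · exact Or.inl rfl
    · exact Or.inr rfl
  · rintro ⟨n, hn⟩
    rcases hn with h | h
    · refine ⟨((n, 2) : Vx), Or.inl rfl, ?_⟩
      unfold Network.laplacian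
      rw [Finsupp.linearCombination_single, one_smul]
      exact h.symm
    · refine ⟨((n, 3) : Vx), Or.inr rfl, ?_⟩
      unfold Network.laplacian
      rw [Finsupp.linearCombination_single, one_smul]
      exact h.symm

/-- The inverse of the weight of an edge. -/
noncomputable def iw (e : Ed) : R := ((N.w_unit e).unit⁻¹ : Rˣ)

lemma iw_mul (e : Ed) : iw N e * N.w e = 1 := (N.w_unit e).val_inv_mul

/-- The image of `c_n` under the elimination map. -/
noncomputable def gam (n : ℕ) : Vx →₀ R :=
  iw N (n, 4, true) • ((N.d ((n, 3) : Vx) + N.w ((n, 3, true) : Ed) + N.w ((n, 4, true) : Ed)) •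
      (single ((n, 3) : Vx) (1 : R)) -
    N.w ((n, 3, true) : Ed) • (single ((n + 1, 0) : Vx) (1 : R)))

/-- The image of `b_n` under the elimination map. -/
noncomputable def bet (n : ℕ) : Vx →₀ R :=
  iw N (n, 0, true) • ((N.d ((n, 2) : Vx) + N.w ((n, 0, true) : Ed) + N.w ((n, 1, true) : Ed) +
      N.w ((n, 2, true) : Ed)) • (single ((n, 2) : Vx) (1 : R)) -
    N.w ((n, 1, true) : Ed) • (single ((n + 1, 0) : Vx) (1 : R)) -
    N.w ((n, 2, true) : Ed) • gam N n)

/-- The elimination map on vertices. -/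
noncomputable def elimV (n : ℕ) (v : Vx) : Vx →₀ R :=
  if v = (n, 0) then bet N n else if v = (n, 1) then gam N n else single v (1 : R)

/-- The elimination map. -/
noncomputable def elim (n : ℕ) : (Vx →₀ R) →ₗ[R] (Vx →₀ R) :=
  Finsupp.linearCombination R (elimV N n)

lemma elim_single (n : ℕ) (v : Vx) : elim N n (single v (1 : R)) = elimV N n v := by
  unfold elim
  rw [Finsupp.linearCombination_single, one_smul]

lemma gam_sub (n : ℕ) : gam N n - single ((n, 1) : Vx) (1 : R) =
    iw N (n, 4, true) • N.lapVertex ((n, 3) : Vx) := by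
  rw [lap_y]
  unfold gam
  have h := iw_mul N ((n, 4, true) : Ed)
  have h2 : single ((n, 1) : Vx) (1 : R) =
      (iw N (n, 4, true) * N.w ((n, 4, true) : Ed)) • single ((n, 1) : Vx) (1 : R) := by
    rw [h, one_smul]
  rw [smul_sub (iw N (n, 4, true)) _ (N.w ((n, 4, true) : Ed) • single ((n, 1) : Vx) (1 : R)),
    smul_smul, ← h2]

lemma bet_sub (n : ℕ) : bet N n - single ((n, 0) : Vx) (1 : R) =
    iw N (n, 0, true) • (N.lapVertex ((n, 2) : Vx) -
      N.w ((n, 2, true) : Ed) • (gam N n - single ((n, 1) : Vx) (1 : R))) := by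
  rw [lap_x]
  unfold bet
  have h := iw_mul N ((n, 0, true) : Ed)
  have h2 : single ((n, 0) : Vx) (1 : R) =
      (iw N (n, 0, true) * N.w ((n, 0, true) : Ed)) • single ((n, 0) : Vx) (1 : R) := by
    rw [h, one_smul]
  conv_lhs => rw [h2]
  module

lemma flat_all : Module.Flat R N.Upsilon := by
  have hx : ∀ n, N.lapVertex ((n, 2) : Vx) ∈
      Submodule.map N.laplacian (Finsupp.supported R R G.interior) := by
    intro n
    rw [map_eq_span]
    exact Submodule.subset_span (Set.mem_iUnion.mpr ⟨n, Or.inl rfl⟩)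
  have hy : ∀ n, N.lapVertex ((n, 3) : Vx) ∈
      Submodule.map N.laplacian (Finsupp.supported R R G.interior) := by
    intro n
    rw [map_eq_span]
    exact Submodule.subset_span (Set.mem_iUnion.mpr ⟨n, Or.inr rfl⟩)
  refine flat_of_seq (P := Vx →₀ R) _ (rels N) (map_eq_span N) (elim N) ?_ ?_ ?_
  · intro n p
    induction p using Finsupp.induction_linear with
    | zero => simp
    | add a b ha hb =>
      have := Submodule.add_mem _ ha hb
      rw [map_add]
      convert this using 1
      abel
    | single v r =>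
      have h1 : single v r = r • single v (1 : R) := by
        rw [Finsupp.smul_single, smul_eq_mul, mul_one]
      rw [h1, map_smul, elim_single, ← smul_sub]
      refine Submodule.smul_mem _ _ ?_
      unfold elimV
      split_ifs with h2 h3
      · rw [h2, bet_sub, gam_sub]
        exact Submodule.smul_mem _ _ (Submodule.sub_mem _ (hx n)
          (Submodule.smul_mem _ _ (Submodule.smul_mem _ _ (hy n))))
      · rw [h3, gam_sub]
        exact Submodule.smul_mem _ _ (hy n)
      · rw [sub_self]
        exact Submodule.zero_mem _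
  · intro n t ht
    rcases ht with ht | ht
    · rw [ht, lap_x]
      simp only [map_sub, map_smul, elim_single]
      have e0 : elimV N n (n, 0) = bet N n := by simp [elimV]
      have e1 : elimV N n (n, 1) = gam N n := by simp [elimV]
      have e2 : elimV N n (n, 2) = single ((n, 2) : Vx) (1 : R) := by simp [elimV]
      have e3 : elimV N n (n + 1, 0) = single ((n + 1, 0) : Vx) (1 : R) := by simp [elimV]
      rw [e0, e1, e2, e3]
      unfold bet
      have h := iw_mul N ((n, 0, true) : Ed)
      rw [smul_smul (N.w ((n, 0, true) : Ed)), mul_comm (N.w ((n, 0, true) : Ed)), h, one_smul]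
      abel
    · rw [ht, lap_y]
      simp only [map_sub, map_smul, elim_single]
      have e1 : elimV N n (n, 1) = gam N n := by simp [elimV]
      have e2 : elimV N n (n, 3) = single ((n, 3) : Vx) (1 : R) := by simp [elimV]
      have e3 : elimV N n (n + 1, 0) = single ((n + 1, 0) : Vx) (1 : R) := by simp [elimV]
      rw [e1, e2, e3]
      unfold gam
      have h := iw_mul N ((n, 4, true) : Ed)
      rw [smul_smul (N.w ((n, 4, true) : Ed)), mul_comm (N.w ((n, 4, true) : Ed)), h, one_smul]
      abel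
  · intro m n hmn t ht
    have key : ∀ v : Vx, (v.1 = m → v.2 ≠ 0 ∧ v.2 ≠ 1) →
        elimV N m v = single v (1 : R) := by
      intro v hv
      unfold elimV
      rw [if_neg, if_neg]
      · intro h
        rw [h] at hv
        exact (hv rfl).2 rfl
      · intro h
        rw [h] at hv
        exact (hv rfl).1 rfl
    have k0 : elimV N m (n, 0) = single ((n, 0) : Vx) (1 : R) := key _ (fun h => by simp at h; omega)
    have k1 : elimV N m (n, 1) = single ((n, 1) : Vx) (1 : R) := key _ (fun h => by simp at h; omega)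
    have k2 : elimV N m (n, 2) = single ((n, 2) : Vx) (1 : R) := key _ (fun h => by simp at h; omega)
    have k3 : elimV N m (n, 3) = single ((n, 3) : Vx) (1 : R) := key _ (fun h => by simp at h; omega)
    have k4 : elimV N m (n + 1, 0) = single ((n + 1, 0) : Vx) (1 : R) :=
      key _ (fun h => by simp at h; omega)
    rcases ht with ht | ht
    · rw [ht, lap_x]
      simp only [map_sub, map_smul, elim_single]
      rw [k0, k1, k2, k4]
    · rw [ht, lap_y]
      simp only [map_sub, map_smul, elim_single]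
      rw [k1, k3, k4]

end

/-! ### The integral network -/

/-- The integral network with `b_n + b_{n+1} + c_n = 0` and `b_{n+1} = c_n`. -/
def netZ : Network G ℤ where
  w e := if e.2.1 = 4 then -1 else 1
  d v := if v.2 = 2 then -3 else 0
  w_rev e := by simp
  w_unit e := by split_ifs <;> simp

/-- The values of the functional on the vertices. -/
noncomputable def valV (v : Vx) : ℚ :=
  if v.2 = 0 then (-1 / 2) ^ v.1 else if v.2 = 1 then (-1 / 2) ^ (v.1 + 1) else 0

/-- The functional `b_n ↦ (-1/2)^n`, `c_n ↦ (-1/2)^{n+1}`, `x_n, y_n ↦ 0`. -/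
noncomputable def val : (Vx →₀ ℤ) →ₗ[ℤ] ℚ := Finsupp.linearCombination ℤ valV

lemma val_single (v : Vx) : val (single v (1 : ℤ)) = valV v := by
  unfold val
  rw [Finsupp.linearCombination_single, one_smul]

lemma d2 (n : ℕ) : netZ.d ((n, 2) : Vx) = -3 := rfl
lemma d3 (n : ℕ) : netZ.d ((n, 3) : Vx) = 0 := rfl
lemma w0 (n : ℕ) : netZ.w ((n, 0, true) : Ed) = 1 := rfl
lemma w1 (n : ℕ) : netZ.w ((n, 1, true) : Ed) = 1 := rfl
lemma w2 (n : ℕ) : netZ.w ((n, 2, true) : Ed) = 1 := rfl
lemma w3 (n : ℕ) : netZ.w ((n, 3, true) : Ed) = 1 := rfl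
lemma w4 (n : ℕ) : netZ.w ((n, 4, true) : Ed) = -1 := rfl

lemma lapZ_x (n : ℕ) : netZ.lapVertex ((n, 2) : Vx) =
    -(single ((n, 0) : Vx) (1 : ℤ)) - single ((n + 1, 0) : Vx) (1 : ℤ) -
      single ((n, 1) : Vx) (1 : ℤ) := by
  rw [lap_x, d2, w0, w1, w2]
  norm_num

lemma lapZ_y (n : ℕ) : netZ.lapVertex ((n, 3) : Vx) =
    -(single ((n + 1, 0) : Vx) (1 : ℤ)) + single ((n, 1) : Vx) (1 : ℤ) := by
  rw [lap_y, d3, w3, w4]
  norm_num

lemma valV_0 (n : ℕ) : valV ((n, 0) : Vx) = (-1 / 2) ^ n := by
  unfold valV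
  rw [if_pos rfl]

lemma valV_1 (n : ℕ) : valV ((n, 1) : Vx) = (-1 / 2) ^ (n + 1) := by
  unfold valV
  rw [if_neg (show ¬ ((1 : Fin 4) = 0) by decide), if_pos rfl]

lemma val_x (n : ℕ) : val (netZ.lapVertex ((n, 2) : Vx)) = 0 := by
  rw [lapZ_x]
  simp only [map_sub, map_neg, val_single, valV_0, valV_1]
  ring

lemma val_y (n : ℕ) : val (netZ.lapVertex ((n, 3) : Vx)) = 0 := by
  rw [lapZ_y]
  simp only [map_add, map_neg, val_single, valV_0, valV_1]
  ring

lemma val_map (k : Vx →₀ ℤ)
    (hk : k ∈ Submodule.map netZ.laplacian (Finsupp.supported ℤ ℤ G.interior)) : val k = 0 := by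
  rw [map_eq_span] at hk
  induction hk using Submodule.span_induction with
  | mem t ht =>
    obtain ⟨n, hn⟩ := Set.mem_iUnion.mp ht
    rcases hn with h | h
    · rw [h, val_x]
    · rw [h, val_y]
  | zero => exact map_zero _
  | add a b _ _ ha hb => rw [map_add, ha, hb, add_zero]
  | smul r a _ ha => rw [map_smul, ha, smul_zero]

/-- The class of `b_n`. -/
noncomputable def cls (n : ℕ) : netZ.Upsilon := Submodule.Quotient.mk (single ((n, 0) : Vx) (1 : ℤ))

lemma cls_succ (n : ℕ) : cls n = (-2 : ℤ) • cls (n + 1) := by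
  have hx : netZ.lapVertex ((n, 2) : Vx) ∈
      Submodule.map netZ.laplacian (Finsupp.supported ℤ ℤ G.interior) := by
    rw [map_eq_span]
    exact Submodule.subset_span (Set.mem_iUnion.mpr ⟨n, Or.inl rfl⟩)
  have hy : netZ.lapVertex ((n, 3) : Vx) ∈
      Submodule.map netZ.laplacian (Finsupp.supported ℤ ℤ G.interior) := by
    rw [map_eq_span]
    exact Submodule.subset_span (Set.mem_iUnion.mpr ⟨n, Or.inr rfl⟩)
  unfold cls
  rw [← Submodule.Quotient.mk_smul, Submodule.Quotient.eq]
  have h : single ((n, 0) : Vx) (1 : ℤ) - (-2 : ℤ) • single ((n + 1, 0) : Vx) (1 : ℤ) =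
      -(netZ.lapVertex ((n, 2) : Vx)) - netZ.lapVertex ((n, 3) : Vx) := by
    rw [lapZ_x, lapZ_y]
    module
  rw [h]
  exact Submodule.sub_mem _ (Submodule.neg_mem _ hx) hy

lemma cls_pow (n : ℕ) : cls 0 = ((-2 : ℤ) ^ n) • cls n := by
  induction n with
  | zero => simp
  | succ n ih => rw [ih, cls_succ n, smul_smul, pow_succ]

lemma cls_ne : cls 0 ≠ 0 := by
  intro h
  unfold cls at h
  rw [Submodule.Quotient.mk_eq_zero] at h
  have := val_map _ h
  rw [val_single, valV_0] at this
  norm_num at this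

lemma not_free : ¬ Module.Free ℤ netZ.Upsilon := by
  intro hfree
  let B := Module.Free.chooseBasis ℤ netZ.Upsilon
  apply cls_ne
  apply B.repr.injective
  rw [map_zero]
  ext i
  rw [Finsupp.zero_apply]
  by_contra hne
  have hdvd : ∀ n : ℕ, (2 : ℤ) ^ n ∣ B.repr (cls 0) i := by
    intro n
    rw [cls_pow n, map_smul, Finsupp.smul_apply, smul_eq_mul]
    refine Dvd.dvd.mul_right ?_ _
    rw [neg_pow]
    exact Dvd.intro_left _ rfl
  have h1 : ((B.repr (cls 0) i).natAbs : ℕ) < 2 ^ (B.repr (cls 0) i).natAbs :=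
    Nat.lt_two_pow_self
  have h2 := Int.natAbs_dvd_natAbs.mpr (hdvd (B.repr (cls 0) i).natAbs)
  rw [Int.natAbs_pow] at h2
  have h3 := Nat.le_of_dvd (Int.natAbs_pos.mpr hne) h2
  have h4 : (2 : ℤ).natAbs = 2 := rfl
  rw [h4] at h3
  omega

/-! ### Connectedness and simplicity -/

lemma simple_edges (e e' : Ed) (h1 : st e = st e') (h2 : en e = en e') : e = e' := by
  obtain ⟨n, k, o⟩ := e
  obtain ⟨n', k', o'⟩ := e'
  cases o <;> cases o' <;> fin_cases k <;> fin_cases k' <;>
    simp [st, en, inner, outer] at h1 h2 ⊢ <;> omega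

lemma no_loops (e : Ed) : st e ≠ en e := by
  obtain ⟨n, k, o⟩ := e
  cases o <;> fin_cases k <;> simp [st, en, inner, outer]

/-- Adjacency. -/
def Adj (a b : Vx) : Prop := ∃ e : Ed, st e = a ∧ en e = b

lemma Adj.symm {a b : Vx} (h : Adj a b) : Adj b a := by
  obtain ⟨⟨n, k, o⟩, h1, h2⟩ := h
  refine ⟨(n, k, !o), ?_, ?_⟩
  · cases o <;> simpa [st, en] using h2
  · cases o <;> simpa [st, en] using h1

lemma reach_symm {a b : Vx} (h : Relation.ReflTransGen Adj a b) : Relation.ReflTransGen Adj b a :=
  by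
  induction h with
  | refl => exact Relation.ReflTransGen.refl
  | tail _ h ih => exact ih.head (Adj.symm h)

lemma reach_zero (v : Vx) : Relation.ReflTransGen Adj (0, 0) v := by
  have hb : ∀ n : ℕ, Relation.ReflTransGen Adj (0, 0) (n, 0) := by
    intro n
    induction n with
    | zero => exact Relation.ReflTransGen.refl
    | succ n ih =>
      refine (ih.tail (b := (n, 0)) (c := (n, 2)) ?_).tail ?_
      · exact ⟨(n, 0, false), rfl, rfl⟩
      · exact ⟨(n, 1, true), rfl, rfl⟩
  obtain ⟨n, i⟩ := v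
  have hx : Relation.ReflTransGen Adj (0, 0) (n, 2) :=
    (hb n).tail ⟨(n, 0, false), rfl, rfl⟩
  have hc : Relation.ReflTransGen Adj (0, 0) (n, 1) :=
    hx.tail ⟨(n, 2, true), rfl, rfl⟩
  have hy : Relation.ReflTransGen Adj (0, 0) (n, 3) :=
    hc.tail ⟨(n, 4, false), rfl, rfl⟩
  fin_cases i
  · exact hb n
  · exact hc
  · exact hx
  · exact hy

/-- There is an infinite `∂`-graph (moreover connected, without loops and without multiple edges)
such that the fundamental module of every `R^×`-network on it is flat, for every commutative ring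
`R`, but the fundamental module of some `ℤ^×`-network on it is not free. -/
theorem result.{u} : ∃ G : BoundaryGraph, Infinite G.V ∧
    (∀ a b : G.V, Relation.ReflTransGen (fun x y => ∃ e, G.start e = x ∧ G.fin e = y) a b) ∧
    (∀ e e', G.start e = G.start e' → G.fin e = G.fin e' → e = e') ∧
    (∀ e, G.start e ≠ G.fin e) ∧
    (∀ (R : Type u) [CommRing R] (N : Network G R), Module.Flat R N.Upsilon) ∧
    ∃ N : Network G ℤ, ¬ Module.Free ℤ N.Upsilon := by
  refine ⟨G, inferInstance, ?_, simple_edges, no_loops, fun R _ N => flat_all N, netZ, not_free⟩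
  intro a b
  exact (reach_symm (reach_zero a)).trans (reach_zero b)

end Pool.Agent.Results.MP_2ddb17_co.FlatNotFree
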